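import Pool.Agent.helper48.AGR.Spec

/-!
# Project AG, row CJ: the map `y j ↦ y j (h j) (y j)⁻¹` is injective
-/

set_option autoImplicit false

namespace Pool.Agent.AGR

open Monoid Function

section

variable {X : Type} [Group X] {w : Vt →* X} {J : Type}

/-- The exponent of a letter. -/
def CJ_s : Bool → ℤ
  | true => 1
  | false => -1

theorem CJ_cons (j : J) (b : Bool) (l : List (J × Bool)) :
    (inr (1, FreeGroup.mk ((j, b) :: l)) : W w J) =
      (W.y j : W w J) ^ (CJ_s b) * inr (1, FreeGroup.mk l) := by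
  have h1 : (FreeGroup.mk ((j, b) :: l) : FreeGroup J) =
      (FreeGroup.of j) ^ (CJ_s b) * FreeGroup.mk l := by
    cases b with
    | true =>
      rw [show CJ_s true = 1 from rfl, zpow_one, FreeGroup.of, FreeGroup.mul_mk]
      rfl
    | false =>
      rw [show CJ_s false = -1 from rfl, zpow_neg_one, FreeGroup.of, FreeGroup.inv_mk,
        FreeGroup.mul_mk]
      rfl
  rw [h1, W.y, ← map_zpow, ← map_mul]
  congr 1
  ext
  · simp
  · simp

theorem CJ_conj (F : W w J →* W w J) (h : J → X)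
    (hy : ∀ j, F (W.y j) = W.y j * W.g (h j) * (W.y j)⁻¹) (j : J) (m : ℤ) :
    F ((W.y j) ^ m) = W.y j * W.g (h j ^ m) * (W.y j)⁻¹ := by
  rw [map_zpow, hy, conj_zpow, ← map_zpow]

/-- Powers of `h j` are not in `V`. -/
theorem CJ_pow (vg : VG w) (x : X) (hc : Cen w x) (hn : ∀ a, x ≠ w a) (m : ℤ) (hm : m ≠ 0) :
    ∀ a, x ^ m ≠ w a := by
  have hnat : ∀ n : ℕ, n ≠ 0 → ∀ a, x ^ n ≠ w a := by
    intro n hn0 a e
    obtain ⟨a', e'⟩ := vg.tf x hc n hn0 ⟨a, e⟩
    exact hn a' e'
  intro a e
  obtain ⟨n, rfl | rfl⟩ := m.eq_nat_or_neg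
  · rw [zpow_natCast] at e
    exact hnat n (by simpa using hm) a e
  · rw [zpow_neg, zpow_natCast] at e
    refine hnat n (by simpa using hm) a⁻¹ ?_
    rw [map_inv, ← e, inv_inv]

theorem CJ_letterL (x : X) (hx : ∀ a, x ≠ w a) :
    Red w (MonoidHom.inl Vt (FreeGroup J)) false false 1 (W.g x : W w J) :=
  Red.l x (by
    rintro ⟨a, e⟩
    exact hx a e.symm)

theorem CJ_letterR (a : Vt) (u : FreeGroup J) (hu : u ≠ 1) :
    Red w (MonoidHom.inl Vt (FreeGroup J)) true true 1 (inr (a, u) : W w J) :=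
  Red.r (a, u) (by
    rintro ⟨a', e⟩
    exact hu (congrArg Prod.snd e).symm)

theorem CJ_letterY (j : J) :
    Red w (MonoidHom.inl Vt (FreeGroup J)) true true 1 (W.y j : W w J) :=
  CJ_letterR 1 (FreeGroup.of j) (FreeGroup.of_ne_one j)

theorem CJ_letterYi (j : J) :
    Red w (MonoidHom.inl Vt (FreeGroup J)) true true 1 ((W.y j)⁻¹ : W w J) := by
  have h : ((W.y j)⁻¹ : W w J) = inr (1, (FreeGroup.of j)⁻¹) := by
    rw [W.y, ← map_inv]
    congr 1
  rw [h]
  exact CJ_letterR 1 _ (inv_ne_one.mpr (FreeGroup.of_ne_one j))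

theorem CJ_letterYY (i j : J) (hij : i ≠ j) :
    Red w (MonoidHom.inl Vt (FreeGroup J)) true true 1 ((W.y i)⁻¹ * W.y j : W w J) := by
  have h : ((W.y i)⁻¹ * W.y j : W w J) = inr (1, (FreeGroup.of i)⁻¹ * FreeGroup.of j) := by
    rw [W.y, W.y, ← map_inv, ← map_mul]
    congr 1
    ext <;> simp
  rw [h]
  refine CJ_letterR 1 _ ?_
  intro e
  rw [inv_mul_eq_one] at e
  exact hij (FreeGroup.of_injective e)

/-- Claim 1. -/
theorem CJ_claim (vg : VG w) (h : J → X) (hc : ∀ j, Cen w (h j)) (hn : ∀ j a, h j ≠ w a)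
    (F : W w J →* W w J) (hy : ∀ j, F (W.y j) = W.y j * W.g (h j) * (W.y j)⁻¹) :
    ∀ (l : List (J × Bool)) (j : J) (b : Bool), FreeGroup.IsReduced ((j, b) :: l) →
      ∃ (m : ℤ) (z : W w J) (k : ℕ), m ≠ 0 ∧ (0 < m ↔ b = true) ∧
        Red w (MonoidHom.inl Vt (FreeGroup J)) true true k z ∧
        F (inr (1, FreeGroup.mk ((j, b) :: l))) = W.y j * W.g (h j ^ m) * z := by
  intro l
  induction l with
  | nil =>
    intro j b _
    refine ⟨CJ_s b, (W.y j)⁻¹, 1, ?_, ?_, CJ_letterYi j, ?_⟩
    · cases b <;> simp [CJ_s]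
    · cases b <;> simp [CJ_s]
    · rw [CJ_cons, map_mul, CJ_conj F h hy]
      have h1 : (inr (1, FreeGroup.mk []) : W w J) = 1 := map_one _
      rw [h1, map_one, mul_one]
  | cons p l ih =>
    obtain ⟨i, c⟩ := p
    intro j b hred
    rw [FreeGroup.isReduced_cons_cons] at hred
    obtain ⟨hjb, hred'⟩ := hred
    obtain ⟨m, z, k, hm0, hmc, hz, he⟩ := ih i c hred'
    rw [CJ_cons, map_mul, CJ_conj F h hy, he]
    by_cases hij : j = i
    · subst hij
      have hbc : b = c := hjb rfl
      subst hbc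
      refine ⟨CJ_s b + m, z, k, ?_, ?_, hz, ?_⟩
      · cases b
        · have : ¬ 0 < m := fun h => by simpa using hmc.mp h
          simp only [CJ_s]
          omega
        · have : 0 < m := hmc.mpr rfl
          simp only [CJ_s]
          omega
      · cases b
        · have : ¬ 0 < m := fun h => by simpa using hmc.mp h
          simp only [CJ_s]
          constructor
          · intro h
            omega
          · intro h
            exact absurd h (by simp)
        · have : 0 < m := hmc.mpr rfl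
          exact ⟨fun _ => rfl, fun _ => by
            change 0 < (1 : ℤ) + m
            omega⟩
      · rw [zpow_add, map_mul]
        group
    · refine ⟨CJ_s b, ((W.y j)⁻¹ * W.y i) * W.g (h i ^ m) * z, 1 + 1 + k, ?_, ?_, ?_, ?_⟩
      · cases b <;> simp [CJ_s]
      · cases b <;> simp [CJ_s]
      · have r1 := CJ_letterYY (w := w) j i hij
        have r2 := CJ_letterL (J := J) (h i ^ m) (CJ_pow vg (h i) (hc i) (hn i) m hm0)
        have r12 : Red w (MonoidHom.inl Vt (FreeGroup J)) true false (1 + 1)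
            ((W.y j)⁻¹ * W.y i * W.g (h i ^ m)) := Red.app r1 r2
        exact Red.app r12 hz
      · group

end

/-- Row CJ. -/
theorem CJ (hNF : NF_stmt) (hEX : EX_stmt) (hLET : LET_stmt) : CJ_stmt := by
  classical
  intro X _ w J h vg hc hn
  have hcomm : ∀ (a : Vt) (j : J), Commute ((W.g : X →* W w J) (w a))
      (W.y j * W.g (h j) * (W.y j)⁻¹) := by
    intro a j
    have c1 : Commute ((W.g : X →* W w J) (w a)) (W.y j) := W.comm a j
    have c2 : Commute ((W.g : X →* W w J) (w a)) (W.g (h j)) :=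
      ((hc j a).symm).map (W.g : X →* W w J)
    exact (c1.mul_right c2).mul_right c1.inv_right
  set F : W w J →* W w J := W.lift W.g (fun j => W.y j * W.g (h j) * (W.y j)⁻¹) hcomm with hF
  have hg : ∀ x, F (W.g x) = W.g x := fun x => by rw [hF, W.lift_g]
  have hy : ∀ j, F (W.y j) = W.y j * W.g (h j) * (W.y j)⁻¹ := fun j => by rw [hF, W.lift_y]
  refine ⟨F, ?_, hg, hy⟩
  have hfi : Injective w := vg.inj
  have hgi : Injective (MonoidHom.inl Vt (FreeGroup J)) := fun a b e => congrArg Prod.fst e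
  obtain ⟨_, _, habs, _⟩ := hLET X (Vt × FreeGroup J) Vt w (MonoidHom.inl Vt (FreeGroup J))
  -- letters of the right factor
  have hR : ∀ (a : Vt) (u : FreeGroup J), u ≠ 1 →
      ∃ n, Red w (MonoidHom.inl Vt (FreeGroup J)) true true n (F (inr (a, u))) := by
    intro a u hu
    have e1 : (inr (a, u) : W w J) = W.g (w a) * inr (1, u) := by
      have h : (W.g (w a) : W w J) = inr (a, 1) := glue a
      rw [h, ← map_mul]
      simp
    have hword : ∃ n, Red w (MonoidHom.inl Vt (FreeGroup J)) true true n (F (inr (1, u))) := by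
      have hred : FreeGroup.IsReduced u.toWord := FreeGroup.isReduced_toWord
      have hmk : FreeGroup.mk u.toWord = u := FreeGroup.mk_toWord
      cases hl : u.toWord with
      | nil =>
        exfalso
        rw [hl] at hmk
        exact hu hmk.symm
      | cons p l =>
        obtain ⟨j, b⟩ := p
        rw [hl] at hred hmk
        obtain ⟨m, z, k, hm0, _, hz, he⟩ := CJ_claim vg h hc hn F hy l j b hred
        rw [hmk] at he
        refine ⟨1 + 1 + k, ?_⟩
        rw [he]
        have r1 := CJ_letterY (w := w) j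
        have r2 := CJ_letterL (J := J) (h j ^ m) (CJ_pow vg (h j) (hc j) (hn j) m hm0)
        have r12 : Red w (MonoidHom.inl Vt (FreeGroup J)) true false (1 + 1)
            (W.y j * W.g (h j ^ m)) := Red.app r1 r2
        exact Red.app r12 hz
    obtain ⟨n, hn⟩ := hword
    refine ⟨n, ?_⟩
    rw [e1, map_mul, hg]
    exact (habs _ _ _ _ a hn).2
  -- Claim 2
  have hclaim : ∀ (a b : Bool) (n : ℕ) (x : W w J),
      Red w (MonoidHom.inl Vt (FreeGroup J)) a b n x →
      ∃ n', Red w (MonoidHom.inl Vt (FreeGroup J)) a b n' (F x) := by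
    intro a b n x hx
    induction hx with
    | l x hx =>
      refine ⟨1, ?_⟩
      have := hg x
      rw [show (F (inl x) : W w J) = inl x from this]
      exact Red.l x hx
    | r x hx =>
      obtain ⟨a, u⟩ := x
      refine hR a u ?_
      rintro rfl
      exact hx ⟨a, rfl⟩
    | app h1 h2 ih1 ih2 =>
      obtain ⟨m', h1'⟩ := ih1
      obtain ⟨n', h2'⟩ := ih2
      refine ⟨m' + n', ?_⟩
      rw [map_mul]
      exact Red.app h1' h2'
  rw [injective_iff_map_eq_one]
  intro x hx
  rcases hEX X (Vt × FreeGroup J) Vt w (MonoidHom.inl Vt (FreeGroup J)) hfi hgi x with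
    ⟨c, rfl⟩ | ⟨a, b, n, hr⟩
  · exact (hg (w c)).symm.trans hx
  · exfalso
    obtain ⟨n', hr'⟩ := hclaim a b n x hr
    refine hNF X (Vt × FreeGroup J) Vt w (MonoidHom.inl Vt (FreeGroup J)) hfi hgi a b n' _ hr' 1 ?_
    rw [hx, map_one, map_one]

end Pool.Agent.AGR
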